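import Pool.Agent.TH958.BV.Main
import Pool.Agent.TH339.MP.P10
import Mathlib.FieldTheory.Finite.Extension

/-!
# The L-functions of all projective varieties over number fields form a countable set
-/

set_option autoImplicit false

namespace Pool.Agent.Y770.NR

open NumberField IsDedekindDomain Filter Topology Polynomial Pool.Agent.TH958.BV

section
variable {K : Type} [Field K] [NumberField K] {n : ℕ}

omit [NumberField K] in
lemma cone_span {X X' : Set (MvPolynomial (Fin n) (𝓞 K))} (h : Ideal.span X = Ideal.span X')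
    {κ : Type} [Field κ] (φ : 𝓞 K →+* κ) : cone X φ = cone X' φ := by
  have h1 := cone_comap (RingHom.id (𝓞 K)) Function.surjective_id X φ
  have h2 := cone_comap (RingHom.id (𝓞 K)) Function.surjective_id X' φ
  rw [← h1, ← h2, h]

lemma frob_unique {X X' : Set (MvPolynomial (Fin n) (𝓞 K))} (h : Ideal.span X = Ideal.span X')
    {d i N : ℕ} (hi : i ≤ 2 * d) {v : HeightOneSpectrum (𝓞 K)} {α α' : Fin N → ℂ}
    (hα : IsFrobenius X d i v α) (hα' : IsFrobenius X' d i v α') :
    (Finset.univ.val.map α : Multiset ℂ) = Finset.univ.val.map α' := by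
  obtain ⟨β, h1, h2, h3⟩ := hα
  obtain ⟨β', h1', h2', h3'⟩ := hα'
  rw [← h1, ← h1']
  have hmax : v.asIdeal.IsMaximal := v.isMaximal
  let hF : Field (𝓞 K ⧸ v.asIdeal) := Ideal.Quotient.field v.asIdeal
  have hnm2 : 2 ≤ Ideal.absNorm v.asIdeal := Pool.Agent.TH339.MP.two_le_nm v
  have hcard : Nat.card (𝓞 K ⧸ v.asIdeal) = Ideal.absNorm v.asIdeal := rfl
  have hfin : Finite (𝓞 K ⧸ v.asIdeal) := Nat.finite_of_card_ne_zero (by rw [hcard]; omega)
  obtain ⟨p, hchar⟩ := CharP.exists (𝓞 K ⧸ v.asIdeal)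
  have hp : p.Prime := CharP.char_is_prime (𝓞 K ⧸ v.asIdeal) p
  have : Fact p.Prime := ⟨hp⟩
  have hq1 : (1 : ℝ) < (Ideal.absNorm v.asIdeal : ℝ) := by
    exact_mod_cast (by omega : 1 < Ideal.absNorm v.asIdeal)
  refine weights_unique (Ideal.absNorm v.asIdeal : ℝ) hq1 (2 * d + 1) β β' h2 h2' (fun e he => ?_)
    (by omega)
  have : NeZero e := ⟨by omega⟩
  set κ := FiniteField.Extension (𝓞 K ⧸ v.asIdeal) p e with hκ
  set φ : 𝓞 K →+* κ := (algebraMap (𝓞 K ⧸ v.asIdeal) κ).comp (Ideal.Quotient.mk v.asIdeal) with hφ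
  have hker : RingHom.ker φ = v.asIdeal := by
    ext x
    rw [RingHom.mem_ker, hφ, RingHom.comp_apply, map_eq_zero_iff _
      (algebraMap (𝓞 K ⧸ v.asIdeal) κ).injective, Ideal.Quotient.eq_zero_iff_mem]
  have hc : Nat.card κ = Ideal.absNorm v.asIdeal ^ e := by
    rw [hκ, FiniteField.natCard_extension, hcard]
  have e1 := h3 κ φ e hker hc
  have e2 := h3' κ φ e hker hc
  rw [cone_span h φ, e2] at e1
  refine (mul_left_cancel₀ ?_ e1).symm
  have h4 : (1 : ℕ) < Ideal.absNorm v.asIdeal ^ e := Nat.one_lt_pow (by omega) (by omega)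
  have h5 : ((Ideal.absNorm v.asIdeal : ℂ) ^ e) ≠ 1 := by exact_mod_cast h4.ne'
  exact sub_ne_zero.2 h5

lemma poly_unique {X X' : Set (MvPolynomial (Fin n) (𝓞 K))} (h : Ideal.span X = Ideal.span X')
    {d i N : ℕ} (hi : i ≤ 2 * d) {v : HeightOneSpectrum (𝓞 K)}
    {B B' : HeightOneSpectrum (𝓞 K) → ℂ[X]} (hB : GoodV X d i N B v) (hB' : GoodV X' d i N B' v) :
    B v = B' v := by
  obtain ⟨α, h1, h2⟩ := hB
  obtain ⟨α', h1', h2'⟩ := hB'
  refine Polynomial.funext fun z => ?_
  rw [h2, h2']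
  have h3 := frob_unique h hi h1 h1'
  have h4 := congrArg (fun m : Multiset ℂ => (m.map fun a => 1 - a * z).prod) h3
  simp only [Multiset.map_map] at h4
  exact h4

lemma countable_O : Countable (𝓞 K) := by
  obtain ⟨m, f, hf⟩ := Algebra.FiniteType.iff_quotient_mvPolynomial''.1
    (inferInstance : Algebra.FiniteType ℤ (𝓞 K))
  have : Countable (MvPolynomial (Fin m) ℤ) := countable_mvPoly m ℤ
  exact hf.countable

lemma countable_V : Countable (HeightOneSpectrum (𝓞 K)) := by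
  have := countable_O (K := K)
  have h1 : Countable (Ideal (𝓞 K)) := Pool.Agent.W350.EdgeNF.countable_ideal _
  exact Function.Injective.countable (f := fun v : HeightOneSpectrum (𝓞 K) => v.asIdeal)
    fun v w h => HeightOneSpectrum.ext h

/-- the normalised L-functions over `K` -/
def MotK (K : Type) [Field K] [NumberField K] : Set (ℂ → ℂ) :=
  {f | ∃ (n : ℕ) (X : Set (MvPolynomial (Fin n) (𝓞 K))) (d i N : ℕ)
    (B : HeightOneSpectrum (𝓞 K) → ℂ[X]), i ≤ 2 * d ∧ IsEulerSystem X d i N B ∧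
    f = fun z => LFun B (edgePoint i 0 + z)}

/-- the Euler systems with given data -/
def Sys (n : ℕ) (J : Ideal (MvPolynomial (Fin n) (𝓞 K))) (d i N : ℕ)
    (E : Finset (HeightOneSpectrum (𝓞 K))) : Set (HeightOneSpectrum (𝓞 K) → ℂ[X]) :=
  {B | i ≤ 2 * d ∧ (∀ v k, IsAlgebraic ℚ ((B v).coeff k)) ∧
    ∃ X : Set (MvPolynomial (Fin n) (𝓞 K)), Ideal.span X = J ∧ ∀ v, v ∉ E → GoodV X d i N B v}

lemma countable_Sys (n : ℕ) (J : Ideal (MvPolynomial (Fin n) (𝓞 K))) (d i N : ℕ)
    (E : Finset (HeightOneSpectrum (𝓞 K))) : (Sys n J d i N E).Countable := by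
  refine Set.countable_of_injective_of_countable_image
    (f := fun B : HeightOneSpectrum (𝓞 K) → ℂ[X] => fun v : E => B v.1) ?_ ?_
  · rintro B ⟨hi, -, X, hX, hg⟩ B' ⟨-, -, X', hX', hg'⟩ h
    funext v
    by_cases hv : v ∈ E
    · exact congrFun h ⟨v, hv⟩
    · exact poly_unique (hX.trans hX'.symm) hi (hg v hv) (hg' v hv)
  · refine (Set.countable_pi (α := E) (s := fun _ => {P : ℂ[X] | ∀ k, IsAlgebraic ℚ (P.coeff k)})
      fun _ => countable_alg).mono ?_
    rintro g ⟨B, ⟨-, hB, -⟩, rfl⟩ v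
    exact hB v.1

lemma countable_MotK : (MotK K).Countable := by
  classical
  have hO := countable_O (K := K)
  have hV := countable_V (K := K)
  have hI : ∀ n, Countable (Ideal (MvPolynomial (Fin n) (𝓞 K))) := fun n =>
    Pool.Agent.W350.EdgeNF.countable_ideal _
  have h1 : MotK K ⊆ ⋃ (x : Σ n : ℕ, (Ideal (MvPolynomial (Fin n) (𝓞 K)) × ℕ × ℕ × ℕ ×
      Finset (HeightOneSpectrum (𝓞 K)))),
      (fun B : HeightOneSpectrum (𝓞 K) → ℂ[X] => fun z => LFun B (edgePoint x.2.2.2.1 0 + z)) ''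
        Sys x.1 x.2.1 x.2.2.1 x.2.2.2.1 x.2.2.2.2.1 x.2.2.2.2.2 := by
    rintro f ⟨n, X, d, i, N, B, hi, ⟨hB1, hB2⟩, rfl⟩
    have hbad : {v | ¬ GoodV X d i N B v}.Finite := hB1
    refine Set.mem_iUnion.2 ⟨⟨n, Ideal.span X, d, i, N, hbad.toFinset⟩, B, ⟨hi, fun v => (hB2 v).2,
      X, rfl, fun v hv => ?_⟩, rfl⟩
    by_contra h
    exact hv (by simpa using h)
  refine Set.Countable.mono h1 (Set.countable_iUnion fun x => ?_)
  exact (countable_Sys _ _ _ _ _ _).image _

end

/-- the normalised L-functions of the projective varieties over all number fields -/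
def Mot : Set (ℂ → ℂ) :=
  {f | ∃ (F : Subfield ℂ) (_ : NumberField F), f ∈ MotK F}

lemma exists_gen (F : Subfield ℂ) [NumberField F] :
    ∃ x : ℂ, IsAlgebraic ℚ x ∧ Subfield.closure {x} = F := by
  obtain ⟨a, ha⟩ := Field.exists_primitive_element ℚ F
  refine ⟨a, ?_, le_antisymm (Subfield.closure_le.2 (by simp)) ?_⟩
  · exact (Algebra.IsAlgebraic.isAlgebraic (R := ℚ) a).algHom F.subtype.toRatAlgHom
  · intro y hy
    have h1 : (⟨y, hy⟩ : F) ∈ IntermediateField.adjoin ℚ {a} := by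
      rw [ha]
      exact IntermediateField.mem_top
    have h2 : ∀ z : F, z ∈ IntermediateField.adjoin ℚ {a} →
        (z : ℂ) ∈ Subfield.closure ({(a : ℂ)} : Set ℂ) := by
      intro z hz
      induction hz using IntermediateField.adjoin_induction with
      | mem x hx =>
        rw [Set.mem_singleton_iff.1 hx]
        exact Subfield.subset_closure rfl
      | algebraMap r =>
        have e : ((algebraMap ℚ F r : F) : ℂ) = (r : ℂ) := by simp
        rw [e]
        exact SubfieldClass.ratCast_mem _ r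
      | add x y _ _ hx hy => exact add_mem hx hy
      | inv x _ hx => exact inv_mem hx
      | mul x y _ _ hx hy => exact mul_mem hx hy
    exact h2 _ h1

theorem countable_Mot : Mot.Countable := by
  have h1 : Mot ⊆ ⋃ x ∈ {x : ℂ | IsAlgebraic ℚ x},
      {f | ∃ (_ : NumberField (Subfield.closure ({x} : Set ℂ))),
        f ∈ MotK (Subfield.closure ({x} : Set ℂ))} := by
    rintro f ⟨F, hF, hf⟩
    obtain ⟨x, hx, rfl⟩ := exists_gen F
    exact Set.mem_biUnion hx ⟨hF, hf⟩
  refine Set.Countable.mono h1 ((Algebraic.countable ℚ ℂ).biUnion fun x _ => ?_)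
  by_cases h : NumberField (Subfield.closure ({x} : Set ℂ))
  · refine Set.Countable.mono ?_ (countable_MotK (K := (Subfield.closure ({x} : Set ℂ))))
    rintro f ⟨_, hf⟩
    exact hf
  · refine Set.Countable.mono ?_ Set.countable_empty
    rintro f ⟨h', -⟩
    exact (h h').elim

end Pool.Agent.Y770.NR
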