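import Pool.Agent.Y770.NR.Rel

/-!
# Numerical relations: the final form
-/

set_option autoImplicit false

namespace Pool.Agent.Y770.NR

open Filter Topology MeasureTheory
open Pool.Agent.TH339.MP (PP FF bl ap radial_x volume_divSet ae_notMem M_nonneg differentiableOn_FF)
open Pool.Agent.TH345.ET (ep bv tendsto_ep vals Cont ae_transcendental)
open Pool.Agent.W350.Edge (divSet)
open Pool.Agent.TH958.BV (TT dimH_TT)

/-- the angle at `iτ` in the right half-plane -/
def ang (τ C : ℝ) : Set ℂ := {z : ℂ | 0 < z.re ∧ ‖z - τ * Complex.I‖ ≤ C * z.re}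

/-- the boundary value of `f` at `iτ` is `l` -/
def HasVal (f : ℂ → ℂ) (τ : ℝ) (l : ℂ) : Prop :=
  ∀ C : ℝ, Tendsto f (𝓝[ang τ C] (τ * Complex.I)) (𝓝 l)

lemma HasVal.radial {f : ℂ → ℂ} {τ : ℝ} {l : ℂ} (h : HasVal f τ l) :
    Tendsto (fun x : ℝ => f (τ * Complex.I + x)) (𝓝[>] 0) (𝓝 l) := by
  refine (h 1).comp ?_
  rw [tendsto_nhdsWithin_iff]
  constructor
  · have h4 : Continuous fun x : ℝ => (τ * Complex.I + x : ℂ) := by fun_prop
    have h5 := h4.tendsto 0
    rw [Complex.ofReal_zero, add_zero] at h5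
    exact h5.mono_left nhdsWithin_le_nhds
  · filter_upwards [self_mem_nhdsWithin] with x hx
    have hx' : (0 : ℝ) < x := hx
    have e : (τ * Complex.I + x - τ * Complex.I : ℂ) = x := by ring
    refine ⟨by simpa using hx', ?_⟩
    rw [e, Complex.norm_real, Real.norm_of_nonneg hx'.le]
    simp

/-- a representation of a function on the right half-plane -/
structure Rp (f : ℂ → ℂ) where
  b : PP → ℂ
  h : ℂ → ℂ
  M : ℝ
  hb : ∀ x, ‖b x‖ ≤ M / (x.2 + 1 : ℕ)
  eq : ∀ s : ℂ, 1 < s.re → f (s - 1) = h s * Complex.exp (FF b s)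

lemma FF_zero (s : ℂ) : FF (fun _ => 0) s = 0 := by
  unfold Pool.Agent.TH339.MP.FF Pool.Agent.TH339.MP.tm
  simp

/-- the trivial representation -/
noncomputable def Rp.triv (f : ℂ → ℂ) : Rp f where
  b := fun _ => 0
  h := fun s => f (s - 1)
  M := 0
  hb := fun x => by simp
  eq := fun s _ => by rw [FF_zero]; simp

lemma exists_rp {f : ℂ → ℂ} (hf : f ∈ Mot) : ∃ (r : Rp f) (g : ℂ → ℂ),
    r.h = (fun s => (g s)⁻¹) ∧ Differentiable ℂ g ∧ (∀ τ, τ ∉ TT → g (ep τ) ≠ 0) ∧
    ∀ τ, τ ∉ TT → ∃ l : ℂ, l ≠ 0 ∧ HasVal f τ l := by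
  obtain ⟨F, hF, hf⟩ := hf
  obtain ⟨b, g, M, h1, h2, h3, h4, h5⟩ := rep hf
  exact ⟨⟨b, fun s => (g s)⁻¹, M, h1, h2⟩, g, rfl, h3, h4, h5⟩

open Classical in
/-- the representation -/
noncomputable def rp (f : ℂ → ℂ) : Rp f := if hf : f ∈ Mot then (exists_rp hf).choose else Rp.triv f

lemma rp_mot {f : ℂ → ℂ} (hf : f ∈ Mot) : ∃ (g : ℂ → ℂ),
    (rp f).h = (fun s => (g s)⁻¹) ∧ Differentiable ℂ g ∧ (∀ τ, τ ∉ TT → g (ep τ) ≠ 0) ∧
    ∀ τ, τ ∉ TT → ∃ l : ℂ, l ≠ 0 ∧ HasVal f τ l := by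
  unfold rp
  rw [dif_pos hf]
  exact (exists_rp hf).choose_spec

lemma ep_sub (τ : ℝ) : ep τ - 1 = τ * Complex.I := by
  unfold Pool.Agent.TH345.ET.ep
  ring

lemma rp_analytic {f : ℂ → ℂ} {τ : ℝ} (hτ : τ ∉ TT)
    (hf : f ∈ Mot ∨ AnalyticAt ℂ f (τ * Complex.I)) : AnalyticAt ℂ (rp f).h (ep τ) := by
  by_cases h : f ∈ Mot
  · obtain ⟨g, h1, h2, h3, -⟩ := rp_mot h
    rw [h1]
    exact (h2.analyticAt _).fun_inv (h3 τ hτ)
  · have h1 := hf.resolve_left h
    unfold rp
    rw [dif_neg h]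
    change AnalyticAt ℂ (fun s => f (s - 1)) (ep τ)
    refine AnalyticAt.fun_comp (g := f) (f := fun s : ℂ => s - 1) ?_
      (analyticAt_id.sub analyticAt_const)
    rw [ep_sub]
    exact h1

lemma val_eq {f : ℂ → ℂ} {τ : ℝ} {l : ℂ} (h : HasVal f τ l)
    (hdiv : τ ∉ divSet (ap (rp f).b)) (han : AnalyticAt ℂ (rp f).h (ep τ)) :
    l = bv (rp f).b (rp f).h τ := by
  have h1 := h.radial
  have h2 := (Complex.continuous_exp.tendsto _).comp (radial_x (rp f).hb hdiv)
  have h3 := han.continuousAt.tendsto.comp (tendsto_ep τ)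
  have h4 : Tendsto (fun x : ℝ => f (τ * Complex.I + x)) (𝓝[>] 0)
      (𝓝 (bv (rp f).b (rp f).h τ)) := by
    refine (h3.mul h2).congr' ?_
    filter_upwards [self_mem_nhdsWithin] with x hx
    have hx' : (0 : ℝ) < x := hx
    have h5 := (rp f).eq (1 + τ * Complex.I + x) (by simpa using hx')
    have e : (1 + τ * Complex.I + x : ℂ) - 1 = τ * Complex.I + x := by ring
    rw [e] at h5
    exact h5.symm
  exact tendsto_nhds_unique h1 h4

lemma volume_TT : volume TT = 0 := by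
  have h := dimH_TT
  have h1 : MeasureTheory.Measure.hausdorffMeasure 1 TT = 0 := by
    have h2 : dimH TT < ((1 : NNReal) : ENNReal) := by
      rw [h]
      exact one_pos
    have := hausdorffMeasure_of_dimH_lt h2
    exact_mod_cast this
  rwa [MeasureTheory.hausdorffMeasure_real] at h1

/-- continuation -/
def Continues (f : ℂ → ℂ) (τ : ℝ) : Prop :=
  ∃ φ : ℂ → ℂ, AnalyticAt ℂ φ (τ * Complex.I) ∧
    ∀ᶠ z in 𝓝 (τ * Complex.I : ℂ), 0 < z.re → f z = φ z

lemma ev_shift {τ : ℝ} {p : ℂ → Prop} (h : ∀ᶠ s in 𝓝 (ep τ), p s) :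
    ∀ᶠ z in 𝓝 (τ * Complex.I : ℂ), p (z + 1) := by
  have h1 : Tendsto (fun z : ℂ => z + 1) (𝓝 (τ * Complex.I)) (𝓝 (τ * Complex.I + 1)) :=
    (continuous_id.add continuous_const).tendsto _
  have e : (τ * Complex.I + 1 : ℂ) = ep τ := by
    unfold Pool.Agent.TH345.ET.ep
    ring
  rw [e] at h1
  exact h1.eventually h

/-- continuation or transcendence for one L-function -/
lemma ae_trans {f : ℂ → ℂ} (hf : f ∈ Mot) {A : Set (ℂ → ℂ)} (hA : A.Countable) :
    ∀ᵐ τ : ℝ, ∀ l : ℂ, HasVal f τ l →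
      IsAlgebraic (IntermediateField.adjoin ℚ {w : ℂ | ∃ g ∈ A, AnalyticAt ℂ g (τ * Complex.I) ∧
        g (τ * Complex.I) = w}) l → Continues f τ := by
  classical
  obtain ⟨g, h1, h2, h3, -⟩ := rp_mot hf
  set A' : Set (ℂ → ℂ) := insert g ((fun a : ℂ → ℂ => fun s : ℂ => a (s - 1)) '' A) with hA'
  have hA'c : A'.Countable := (hA.image _).insert g
  have hT := ae_transcendental (rp f).hb (h := fun _ => 1) (fun τ => analyticAt_const) hA'c
  filter_upwards [hT, ae_notMem (rp f).hb, measure_eq_zero_iff_ae_notMem.1 volume_TT]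
    with τ ht hdiv hTT l hl halg
  have hval := val_eq hl hdiv (rp_analytic hTT (Or.inl hf))
  have hg0 := h3 τ hTT
  -- `Cont b 1 τ`
  have hc : Cont (rp f).b (fun _ => 1) τ := by
    rcases ht with ht | ht
    · exact ht
    · exfalso
      apply ht
      set K1 := IntermediateField.adjoin ℚ (vals A' (ep τ)) with hK1
      have hle : IntermediateField.adjoin ℚ {w : ℂ | ∃ g ∈ A, AnalyticAt ℂ g (τ * Complex.I) ∧
          g (τ * Complex.I) = w} ≤ K1 := by
        refine IntermediateField.adjoin.mono _ _ _ ?_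
        rintro w ⟨a, ha, haa, rfl⟩
        refine ⟨fun s => a (s - 1), Set.mem_insert_of_mem _ ⟨a, ha, rfl⟩, ?_, ?_⟩
        · refine AnalyticAt.fun_comp (g := a) (f := fun s : ℂ => s - 1) ?_
            (analyticAt_id.sub analyticAt_const)
          rw [ep_sub]
          exact haa
        · simp only
          rw [ep_sub]
      have halg1 : IsAlgebraic K1 l := by
        obtain ⟨P, hP, hPx⟩ := halg
        refine ⟨P.map (IntermediateField.inclusion hle).toRingHom, ?_, ?_⟩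
        · rw [Polynomial.map_ne_zero_iff (IntermediateField.inclusion hle).toRingHom.injective]
          exact hP
        · rw [Polynomial.aeval_def, Polynomial.eval₂_map]
          rw [Polynomial.aeval_def] at hPx
          exact hPx
      have hgm : g (ep τ) ∈ K1 := IntermediateField.subset_adjoin _ _
        ⟨g, Set.mem_insert _ _, h2.analyticAt _, rfl⟩
      have hga : IsAlgebraic K1 (g (ep τ)) :=
        isAlgebraic_algebraMap (R := K1) (A := ℂ) ⟨g (ep τ), hgm⟩
      have hbv : bv (rp f).b (fun _ => 1) τ = l * g (ep τ) := by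
        rw [hval]
        unfold Pool.Agent.TH345.ET.bv
        rw [h1]
        field_simp
      rw [hbv]
      exact halg1.mul hga
  obtain ⟨φ, hφ, hev⟩ := hc
  refine ⟨fun z => (g (z + 1))⁻¹ * φ (z + 1), ?_, ?_⟩
  · have e : (τ * Complex.I + 1 : ℂ) = ep τ := by
      unfold Pool.Agent.TH345.ET.ep
      ring
    have h5 : AnalyticAt ℂ (fun z : ℂ => z + 1) (τ * Complex.I) :=
      analyticAt_id.add analyticAt_const
    refine AnalyticAt.mul (AnalyticAt.fun_inv ?_ ?_) ?_
    · refine AnalyticAt.fun_comp (g := g) (f := fun z : ℂ => z + 1) ?_ h5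
      exact h2.analyticAt _
    · rw [e]
      exact hg0
    · refine AnalyticAt.fun_comp (g := φ) (f := fun z : ℂ => z + 1) ?_ h5
      rw [e]
      exact hφ
  · filter_upwards [ev_shift hev] with z hz hz1
    have hre : 1 < (z + 1).re := by
      rw [Complex.add_re, Complex.one_re]
      linarith
    have h5 := (rp f).eq (z + 1) hre
    have h6 := hz hre
    rw [one_mul] at h6
    rw [add_sub_cancel_right, h1, h6] at h5
    exact h5

lemma countable_mvQ (m : ℕ) : Countable (MvPolynomial (Fin m) ℚ) := by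
  rw [← Cardinal.mk_le_aleph0_iff]
  refine MvPolynomial.cardinalMk_le_max.trans ?_
  simp

/-- **Numerical relations are functional relations.** -/
theorem main {A : Set (ℂ → ℂ)} (hA : A.Countable) : ∀ᵐ τ : ℝ,
    (∀ f ∈ Mot, ∃ l : ℂ, l ≠ 0 ∧ HasVal f τ l) ∧
    (∀ (m : ℕ) (f : Fin m → ℂ → ℂ) (l : Fin m → ℂ),
      (∀ k, f k ∈ Mot ∨ (f k ∈ A ∧ AnalyticAt ℂ (f k) (τ * Complex.I))) →
      (∀ k, HasVal (f k) τ (l k)) → ∀ P : MvPolynomial (Fin m) ℚ, MvPolynomial.aeval l P = 0 →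
      ∀ᶠ z in 𝓝 (τ * Complex.I : ℂ), 0 < z.re → MvPolynomial.aeval (fun k => f k z) P = 0) ∧
    ∀ f ∈ Mot, ∀ l : ℂ, HasVal f τ l →
      IsAlgebraic (IntermediateField.adjoin ℚ {w : ℂ | ∃ g ∈ A, AnalyticAt ℂ g (τ * Complex.I) ∧
        g (τ * Complex.I) = w}) l → Continues f τ := by
  classical
  set J : Set (ℂ → ℂ) := Mot ∪ A with hJ
  have hJc : J.Countable := countable_Mot.union hA
  have : Countable J := hJc.to_subtype
  have hrel : ∀ᵐ τ : ℝ, ∀ (m : ℕ) (f : Fin m → J) (P : MvPolynomial (Fin m) ℚ),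
      (∀ k, AnalyticAt ℂ (rp (f k).1).h (ep τ)) →
      MvPolynomial.aeval (fun k => bv (rp (f k).1).b (rp (f k).1).h τ)
        (MvPolynomial.map (algebraMap ℚ ℂ) P) = 0 →
      ∀ᶠ s in 𝓝 (ep τ), 1 < s.re →
        MvPolynomial.aeval (Fn (fun k => (rp (f k).1).b) (fun k => (rp (f k).1).h) s)
          (MvPolynomial.map (algebraMap ℚ ℂ) P) = 0 := by
    rw [ae_all_iff]
    intro m
    have := countable_mvQ m
    rw [ae_all_iff]
    intro f
    rw [ae_all_iff]
    intro P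
    exact ae_relation (b := fun k => (rp (f k).1).b) (h := fun k => (rp (f k).1).h)
      (M := fun k => (rp (f k).1).M) (fun k => (rp (f k).1).hb) _
  have hdiv : ∀ᵐ τ : ℝ, ∀ f : J, τ ∉ divSet (ap (rp f.1).b) :=
    ae_all_iff.2 fun f => ae_notMem (rp f.1).hb
  have htr : ∀ᵐ τ : ℝ, ∀ f ∈ Mot, ∀ l : ℂ, HasVal f τ l →
      IsAlgebraic (IntermediateField.adjoin ℚ {w : ℂ | ∃ g ∈ A, AnalyticAt ℂ g (τ * Complex.I) ∧
        g (τ * Complex.I) = w}) l → Continues f τ :=
    (ae_ball_iff countable_Mot).2 fun f hf => ae_trans hf hA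
  filter_upwards [hrel, hdiv, htr, measure_eq_zero_iff_ae_notMem.1 volume_TT]
    with τ h1 h2 h3 hTT
  refine ⟨fun f hf => ?_, fun m f l hf hl P hP => ?_, h3⟩
  · obtain ⟨g, -, -, -, h4⟩ := rp_mot hf
    exact h4 τ hTT
  · have hmem : ∀ k, f k ∈ J := fun k => (hf k).imp id fun h => h.1
    have han : ∀ k, AnalyticAt ℂ (rp (f k)).h (ep τ) := fun k =>
      rp_analytic hTT ((hf k).imp id fun h => h.2)
    have hval : ∀ k, l k = bv (rp (f k)).b (rp (f k)).h τ := fun k =>
      val_eq (hl k) (h2 ⟨f k, hmem k⟩) (han k)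
    have h4 := h1 m (fun k => ⟨f k, hmem k⟩) P han (by
      rw [MvPolynomial.aeval_map_algebraMap]
      have e : (fun k => bv (rp (f k)).b (rp (f k)).h τ) = l := (funext hval).symm
      change MvPolynomial.aeval (fun k => bv (rp (f k)).b (rp (f k)).h τ) P = 0
      rw [e]
      exact hP)
    filter_upwards [ev_shift h4] with z hz hz1
    have hre : 1 < (z + 1).re := by
      rw [Complex.add_re, Complex.one_re]
      linarith
    have h5 := hz hre
    rw [MvPolynomial.aeval_map_algebraMap] at h5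
    have e : Fn (fun k => (rp (f k)).b) (fun k => (rp (f k)).h) (z + 1) = fun k => f k z := by
      funext k
      have h6 := (rp (f k)).eq (z + 1) hre
      rw [add_sub_cancel_right] at h6
      exact h6.symm
    change MvPolynomial.aeval (Fn (fun k => (rp (f k)).b) (fun k => (rp (f k)).h) (z + 1)) P = 0
      at h5
    rw [e] at h5
    exact h5

end Pool.Agent.Y770.NR
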