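import Pool.Agent.Y770.NR.Rep

/-!
# Numerical relations between boundary values are relations between functions
-/

set_option autoImplicit false

namespace Pool.Agent.Y770.NR

open Filter Topology MeasureTheory
open Pool.Agent.TH339.MP (PP FF bl ap radial_x volume_divSet ae_notMem M_nonneg differentiableOn_FF)
open Pool.Agent.TH345.ET (ep bv tendsto_ep)
open Pool.Agent.W350.Edge (divSet)

section
variable {κ : Type} [Fintype κ] {b : κ → PP → ℂ} {M : κ → ℝ} {h : κ → ℂ → ℂ}

/-- the functions -/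
noncomputable def Fn (b : κ → PP → ℂ) (h : κ → ℂ → ℂ) (s : ℂ) (k : κ) : ℂ :=
  h k s * Complex.exp (FF (b k) s)

omit [Fintype κ] in
lemma Fn_analytic (hb : ∀ k x, ‖b k x‖ ≤ M k / (x.2 + 1 : ℕ)) {s : ℂ} (hs : 1 < s.re)
    (hh : ∀ k, AnalyticAt ℂ (h k) s) (k : κ) : AnalyticAt ℂ (fun s => Fn b h s k) s := by
  unfold Fn
  refine (hh k).mul ?_
  have h1 : AnalyticAt ℂ (FF (b k)) s := (differentiableOn_FF (hb k)).analyticAt
    ((isOpen_lt continuous_const Complex.continuous_re).mem_nhds hs)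
  exact h1.cexp

theorem ae_relation (hb : ∀ k x, ‖b k x‖ ≤ M k / (x.2 + 1 : ℕ)) (P : MvPolynomial κ ℂ) :
    ∀ᵐ τ : ℝ, (∀ k, AnalyticAt ℂ (h k) (ep τ)) →
      MvPolynomial.aeval (fun k => bv (b k) (h k) τ) P = 0 →
      ∀ᶠ s in 𝓝 (ep τ), 1 < s.re → MvPolynomial.aeval (Fn b h s) P = 0 := by
  classical
  have hM : ∀ k, 0 ≤ M k := fun k => M_nonneg (hb k)
  set M' : ℝ := ∑ k, M k with hM'
  have hM'0 : 0 ≤ M' := Finset.sum_nonneg fun k _ => hM k
  have hb' : ∀ k x, ‖b k x‖ ≤ M' / (x.2 + 1 : ℕ) := fun k x => (hb k x).trans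
    (div_le_div_of_nonneg_right (Finset.single_le_sum (fun k _ => hM k) (Finset.mem_univ k))
      (by positivity))
  set E : Set ℝ := {τ | (∀ k, τ ∉ divSet (ap (b k))) ∧ (∀ k, AnalyticAt ℂ (h k) (ep τ)) ∧
    MvPolynomial.aeval (fun k => bv (b k) (h k) τ) P = 0 ∧
    ¬ ∀ᶠ s in 𝓝 (ep τ), 1 < s.re → MvPolynomial.aeval (Fn b h s) P = 0} with hE
  have hE0 : volume E = 0 := by
    by_contra hvol
    have key : ∀ τ : E, ∃ r : ℝ, 0 < r ∧ ∀ k, DifferentiableOn ℂ (h k) (Metric.ball (ep τ) r) := by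
      rintro ⟨τ, h1, h2, h3, h4⟩
      have h5 : ∀ k, ∃ r : ℝ, 0 < r ∧ DifferentiableOn ℂ (h k) (Metric.ball (ep τ) r) := by
        intro k
        obtain ⟨r, hr, hr'⟩ := (h2 k).exists_ball_analyticOnNhd
        exact ⟨r, hr, hr'.differentiableOn⟩
      choose r hr hr' using h5
      by_cases hκ : Nonempty κ
      · obtain ⟨k₀, hk₀⟩ := Finite.exists_min r
        exact ⟨r k₀, hr k₀, fun k => (hr' k).mono (Metric.ball_subset_ball (hk₀ k))⟩
      · exact ⟨1, one_pos, fun k => (hκ ⟨k⟩).elim⟩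
    choose r hr hrd using key
    have hepc : Continuous ep := by
      unfold Pool.Agent.TH345.ET.ep
      fun_prop
    set O : E → Set ℝ := fun τ => ep ⁻¹' (Metric.ball (ep τ) (r τ)) with hO
    have hOo : ∀ τ, IsOpen (O τ) := fun τ => Metric.isOpen_ball.preimage hepc
    have hOm : ∀ τ : E, (τ : ℝ) ∈ O τ := fun τ => Metric.mem_ball_self (hr τ)
    obtain ⟨T, hT, hTU⟩ := TopologicalSpace.isOpen_iUnion_countable O hOo
    have hcov : E ⊆ ⋃ t ∈ T, E ∩ O t := by
      intro τ hτ
      have h1 : τ ∈ ⋃ t, O t := Set.mem_iUnion.2 ⟨⟨τ, hτ⟩, hOm ⟨τ, hτ⟩⟩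
      rw [← hTU] at h1
      simp only [Set.mem_iUnion] at h1 ⊢
      obtain ⟨t, ht, ht2⟩ := h1
      exact ⟨t, ht, hτ, ht2⟩
    have hex : ∃ t ∈ T, volume (E ∩ O t) ≠ 0 := by
      by_contra hcon
      push Not at hcon
      exact hvol (measure_mono_null hcov ((measure_biUnion_null_iff hT).2 hcon))
    obtain ⟨t, ht, hZ⟩ := hex
    set U : Set ℂ := Metric.ball (ep t) (r t) with hU
    have hUc : IsPreconnected (U ∩ {s : ℂ | 1 < s.re}) :=
      ((convex_ball _ _).inter (convex_halfSpace_re_gt 1)).isPreconnected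
    have hhan : ∀ k, ∀ s ∈ U, AnalyticAt ℂ (h k) s := fun k s hs =>
      (hrd t k).analyticAt (Metric.isOpen_ball.mem_nhds hs)
    obtain ⟨BP, DP, hBP, hBP'⟩ := poly_bound P
    have hgr : ∀ w ∈ U, ∃ d B : ℝ, ∃ D : ℕ, 0 < d ∧ ∀ s ∈ Metric.closedBall w d, 1 < s.re →
        ‖MvPolynomial.aeval (Fn b h s) P‖ ≤ B * (1 + YY b s) ^ D := by
      intro w hw
      obtain ⟨d, hd, hdU⟩ := Metric.isOpen_iff.1 (Metric.isOpen_ball (x := ep t) (ε := r t)) w hw
      have hcbU : Metric.closedBall w (d / 2) ⊆ U :=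
        (Metric.closedBall_subset_ball (by linarith)).trans hdU
      have hcb : IsCompact (Metric.closedBall w (d / 2)) := isCompact_closedBall _ _
      have h1 : ∀ k, ∃ B, ∀ z ∈ Metric.closedBall w (d / 2), ‖h k z‖ ≤ B := fun k =>
        hcb.exists_bound_of_continuousOn ((hrd t k).continuousOn.mono hcbU)
      choose Bk hBk using h1
      set B0 : ℝ := 1 + ∑ k, |Bk k| with hB0
      have hs0 : 0 ≤ ∑ k, |Bk k| := Finset.sum_nonneg fun k _ => abs_nonneg _
      have hB01 : 1 ≤ B0 := by linarith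
      refine ⟨d / 2, BP * B0 ^ DP, DP, by linarith, fun s hs hs1 => ?_⟩
      have hY := YY_nonneg b s
      have h2 := hBP' (Fn b h s) (B0 * (1 + YY b s)) (by nlinarith) (fun k => by
        unfold Fn
        rw [norm_mul]
        have h3 : ‖h k s‖ ≤ B0 := by
          have h4 := hBk k s hs
          have h5 : |Bk k| ≤ ∑ k, |Bk k| :=
            Finset.single_le_sum (f := fun k => |Bk k|) (fun k _ => abs_nonneg _)
              (Finset.mem_univ k)
          have h6 := le_abs_self (Bk k)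
          linarith
        have h4 : ‖Complex.exp (FF (b k) s)‖ ≤ 1 + YY b s := by
          have h5 : ‖Complex.exp (FF (b k) s)‖ ≤ YY b s :=
            Finset.single_le_sum (f := fun k => ‖Complex.exp (FF (b k) s)‖)
              (fun k _ => norm_nonneg _) (Finset.mem_univ k)
          linarith
        exact mul_le_mul h3 h4 (norm_nonneg _) (by linarith))
      refine h2.trans (le_of_eq ?_)
      rw [mul_pow, mul_assoc]
    have hdiff : DifferentiableOn ℂ (fun s => MvPolynomial.aeval (Fn b h s) P)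
        (U ∩ {s : ℂ | 1 < s.re}) := by
      intro s hs
      have h1 : AnalyticAt ℂ (fun s => MvPolynomial.aeval (Fn b h s) P) s :=
        AnalyticAt.aeval_mvPolynomial (f := fun s k => Fn b h s k)
          (fun k => Fn_analytic hb hs.2 (fun k => hhan k s hs.1) k) P
      exact h1.differentiableAt.differentiableWithinAt
    have hfin := unique_F hb' hM'0 hUc Metric.isOpen_ball hdiff hgr hZ
      (fun τ hτ => hτ.2) (fun τ hτ => by
        have hmem : ep τ ∈ U := hτ.2
        have h1 : ∀ k, Tendsto (fun x : ℝ => Fn b h (1 + τ * Complex.I + x) k) (𝓝[>] 0)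
            (𝓝 (bv (b k) (h k) τ)) := by
          intro k
          have h2 := (Complex.continuous_exp.tendsto _).comp (radial_x (hb k) (hτ.1.1 k))
          have h3 := ((hhan k (ep τ) hmem).continuousAt).tendsto.comp (tendsto_ep τ)
          exact h3.mul h2
        have h2 : Tendsto (fun x : ℝ => Fn b h (1 + τ * Complex.I + x)) (𝓝[>] 0)
            (𝓝 fun k => bv (b k) (h k) τ) := tendsto_pi_nhds.2 h1
        have h3 : Continuous fun x : κ → ℂ => MvPolynomial.aeval x P := by
          have h4 := MvPolynomial.continuous_eval P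
          exact h4
        have h4 := (h3.tendsto _).comp h2
        rw [hτ.1.2.2.1] at h4
        exact h4)
    obtain ⟨τ, hτ⟩ : (E ∩ O t).Nonempty := by
      by_contra hne
      rw [Set.not_nonempty_iff_eq_empty] at hne
      rw [hne, measure_empty] at hZ
      exact hZ rfl
    apply hτ.1.2.2.2
    filter_upwards [Metric.isOpen_ball.mem_nhds (show ep τ ∈ U from hτ.2)] with s hs hs1
    exact hfin s hs hs1
  have hdiv : ∀ᵐ τ : ℝ, ∀ k, τ ∉ divSet (ap (b k)) := ae_all_iff.2 fun k => ae_notMem (hb k)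
  filter_upwards [hdiv, measure_eq_zero_iff_ae_notMem.1 hE0] with τ h1 h2 h3 h4
  by_contra h5
  exact h2 ⟨h1, h3, h4, h5⟩

end

end Pool.Agent.Y770.NR
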