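import Pool.Agent.TH339.MP.X6

/-!
# Local uniqueness of boundary values for functions of polynomial growth in Euler products
-/

set_option autoImplicit false

namespace Pool.Agent.Y770.NR

open Complex Set Filter Topology MeasureTheory Pool.Agent.TH339.MP

section
variable {κ : Type} [Fintype κ] {b : κ → PP → ℂ} {M : ℝ}

/-- the size of the Euler products -/
noncomputable def YY (b : κ → PP → ℂ) (s : ℂ) : ℝ := ∑ k, ‖Complex.exp (FF (b k) s)‖

lemma YY_nonneg (b : κ → PP → ℂ) (s : ℂ) : 0 ≤ YY b s := Finset.sum_nonneg fun _ _ => norm_nonneg _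

omit [Fintype κ] in
lemma rpow_sum_le {q : ℝ} (hq0 : 0 < q) (hq1 : q ≤ 1) (s : Finset κ) (y : κ → ℝ)
    (hy : ∀ k, 0 ≤ y k) : (∑ k ∈ s, y k) ^ q ≤ ∑ k ∈ s, y k ^ q := by
  classical
  induction s using Finset.induction_on with
  | empty => simp [Real.zero_rpow hq0.ne']
  | insert a s ha ih =>
    rw [Finset.sum_insert ha, Finset.sum_insert ha]
    exact (Real.rpow_add_le_add_rpow (hy a) (Finset.sum_nonneg fun k _ => hy k) hq0.le hq1).trans
      (add_le_add le_rfl ih)

/-- **Local uniqueness of boundary values.** -/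
theorem unique_F (hb : ∀ k x, ‖b k x‖ ≤ M / (x.2 + 1 : ℕ)) (hM : 0 ≤ M) {U : Set ℂ}
    (hUc : IsPreconnected (U ∩ {s : ℂ | 1 < s.re})) (hU : IsOpen U) {F : ℂ → ℂ}
    (hF : DifferentiableOn ℂ F (U ∩ {s : ℂ | 1 < s.re}))
    (hgr : ∀ w ∈ U, ∃ d B : ℝ, ∃ D : ℕ, 0 < d ∧ ∀ s ∈ Metric.closedBall w d, 1 < s.re →
      ‖F s‖ ≤ B * (1 + YY b s) ^ D)
    {Z : Set ℝ} (hZ : volume Z ≠ 0) (hZU : ∀ τ ∈ Z, (1 + τ * I : ℂ) ∈ U)
    (hlim : ∀ τ ∈ Z, Tendsto (fun x : ℝ => F (1 + τ * I + x)) (𝓝[>] 0) (𝓝 0)) :
    ∀ s ∈ U, 1 < s.re → F s = 0 := by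
  classical
  obtain ⟨τ₁, hτ₁, hdens⟩ := exists_mem_forall_mem_nhdsWithin_pos_measure hZ
  set w : ℂ := 1 + τ₁ * I with hw
  obtain ⟨d1, hd1, hdU⟩ := Metric.isOpen_iff.1 hU w (hZU τ₁ hτ₁)
  obtain ⟨d2, B0, D, hd2, hB0⟩ := hgr w (hZU τ₁ hτ₁)
  set d : ℝ := min d1 d2 with hd
  have hd0 : 0 < d := lt_min hd1 hd2
  have hcbU : Metric.closedBall w (d / 2) ⊆ U :=
    (Metric.closedBall_subset_ball (by linarith [min_le_left d1 d2])).trans hdU
  set B : ℝ := max 1 B0 with hB
  have hBone : 1 ≤ B := le_max_left _ _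
  have hB' : ∀ s ∈ Metric.closedBall w (d / 2), 1 < s.re → ‖F s‖ ≤ B * (1 + YY b s) ^ (D + 1) := by
    intro s hs hs1
    have h1 := hB0 s (Metric.closedBall_subset_closedBall (by linarith [min_le_right d1 d2]) hs) hs1
    have h2 := YY_nonneg b s
    refine h1.trans (mul_le_mul (le_max_right _ _) ?_ (by positivity) (by positivity))
    exact pow_le_pow_right₀ (by linarith) (by omega)
  set r : ℝ := min (d / 4) (1 / 2) with hr
  have hr0 : 0 < r := by positivity
  have hrd : r ≤ d / 4 := min_le_left _ _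
  have hr2 : r ≤ 1 / 2 := min_le_right _ _
  set ρ : ℝ := r / 2 with hρ
  have hρ0 : 0 < ρ := by positivity
  have hρr : ρ < r := by rw [hρ]; linarith
  have hle : -ρ ≤ ρ := by linarith
  have hin : ∀ z ∈ rect r, w + z ∈ Metric.closedBall w (d / 2) := by
    intro z hz
    rw [Metric.mem_closedBall, dist_eq_norm, add_sub_cancel_left]
    have h1 := Complex.norm_le_abs_re_add_abs_im z
    have h2 : |z.re| ≤ r := by rw [abs_of_pos hz.1]; exact hz.2.1.le
    linarith [hz.2.2]
  have hre : ∀ z ∈ rect r, 1 < (w + z).re := by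
    intro z hz
    simp only [hw, add_re, one_re, mul_re, ofReal_re, I_re, mul_zero, ofReal_im, I_im, mul_one,
      sub_zero]
    linarith [hz.1]
  set G : ℂ → ℂ := fun z => F (w + z) with hG
  have hGd : DifferentiableOn ℂ G (rect r) := by
    have ha : DifferentiableOn ℂ (fun z => w + z) (rect r) :=
      (differentiable_id.const_add w).differentiableOn
    have m1 : MapsTo (fun z => w + z) (rect r) (U ∩ {s : ℂ | 1 < s.re}) := fun z hz =>
      ⟨hcbU (hin z hz), hre z hz⟩
    exact hF.comp ha m1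
  -- the set
  set Z' : Set ℝ := {t | τ₁ + t ∈ Z} ∩ Icc (-ρ) ρ with hZ'
  have hZ'0 : volume Z' ≠ 0 := by
    have h1 : Z ∩ Icc (τ₁ - ρ) (τ₁ + ρ) ∈ 𝓝[Z] τ₁ := by
      refine inter_mem self_mem_nhdsWithin (mem_nhdsWithin_of_mem_nhds ?_)
      exact Icc_mem_nhds (by linarith) (by linarith)
    have h2 := hdens _ h1
    have h3 : Z' = (fun t => τ₁ + t) ⁻¹' (Z ∩ Icc (τ₁ - ρ) (τ₁ + ρ)) := by
      ext t
      simp only [hZ', mem_inter_iff, mem_preimage, mem_Icc]
      constructor
      · rintro ⟨h4, h5, h6⟩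
        exact ⟨h4, by linarith, by linarith⟩
      · rintro ⟨h4, h5, h6⟩
        exact ⟨h4, by linarith, by linarith⟩
    rw [h3, measure_preimage_add]
    exact h2.ne'
  -- the bound
  set q : ℝ := 1 / (2 * (M + 1)) with hq
  have hq0 : 0 < q := by positivity
  have hq1 : q ≤ 1 := by
    rw [hq, div_le_one (by positivity)]
    linarith
  have hqM : |q| * M ≤ 1 / 2 := by
    rw [abs_of_pos hq0, hq, div_mul_eq_mul_div, one_mul, div_le_div_iff₀ (by positivity) (by norm_num)]
    linarith
  set p : ℝ := q / (D + 1 : ℕ) with hp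
  have hD1 : (0 : ℝ) < (D + 1 : ℕ) := by positivity
  have hp0 : 0 < p := by positivity
  have hp1 : p ≤ 1 := by
    rw [hp, div_le_one hD1]
    refine hq1.trans ?_
    push_cast
    linarith [(Nat.cast_nonneg D : (0 : ℝ) ≤ D)]
  set C : ℝ := Real.log 2 + Real.log B + 1 / p + (1 / p) * (1 + Fintype.card κ * 72) with hC
  have hbound : ∀ x, 0 < x → x < r → ∫ t in -ρ..ρ, UU 1 (G (pt (x, t))) ≤ C := by
    intro x hx hxr
    set L : κ → ℝ → ℝ := fun k t => ‖Complex.exp (FF (b k) (w + pt (x, t)))‖ with hL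
    have hcL : ∀ k, Continuous fun t => L k t ^ q := by
      intro k
      have h1 := continuous_norm_exp (hb k) (σ := 1 + x) (by linarith) q
      have h2 : (fun t => L k t ^ q) = fun t : ℝ =>
          ‖Complex.exp (FF (b k) (((1 + x : ℝ) : ℂ) + (τ₁ + t : ℝ) * I))‖ ^ q := by
        funext t
        simp only [hL]
        congr 4
        simp only [hw, pt]
        push_cast
        ring
      rw [h2]
      exact h1.comp (continuous_const.add continuous_id)
    have hint : ∀ k, ∫ t in (-(1 / 2) : ℝ)..(1 / 2), L k t ^ q ≤ 72 := by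
      intro k
      have h1 := hardy (b k) (hb k) (σ := 1 + x) (by linarith) (τ₁ - 1 / 2) (r := q)
        (lt_of_le_of_lt hqM (by norm_num))
      have h2 : 36 / (1 - |q| * M) ≤ 72 := by
        rw [div_le_iff₀ (by linarith)]
        linarith
      have h3 := intervalIntegral.integral_comp_add_left
        (fun u : ℝ => ‖Complex.exp (FF (b k) (((1 + x : ℝ) : ℂ) + u * I))‖ ^ q)
        (a := -(1 / 2)) (b := 1 / 2) τ₁
      have h4 : ∫ t in (-(1 / 2) : ℝ)..(1 / 2), L k t ^ q =
          ∫ t in (-(1 / 2) : ℝ)..(1 / 2),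
            ‖Complex.exp (FF (b k) (((1 + x : ℝ) : ℂ) + (τ₁ + t : ℝ) * I))‖ ^ q := by
        refine intervalIntegral.integral_congr fun t _ => ?_
        simp only [hL]
        congr 4
        simp only [hw, pt]
        push_cast
        ring
      rw [h4, h3]
      have h5 : τ₁ + 1 / 2 = τ₁ - 1 / 2 + 1 := by ring
      have h6 : τ₁ + -(1 / 2) = τ₁ - 1 / 2 := by ring
      rw [h5, h6]
      exact h1.trans h2
    have hL0 : ∀ k t, 0 ≤ L k t := fun k t => norm_nonneg _
    set E : ℝ → ℝ := fun t => Real.log 2 + Real.log B + (1 / p + (1 / p) * (1 + ∑ k, L k t ^ q))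
      with hE
    have hlogB : 0 ≤ Real.log B := Real.log_nonneg hBone
    have hlog2 : 0 ≤ Real.log 2 := Real.log_nonneg (by norm_num)
    have hsum0 : ∀ t, 0 ≤ ∑ k, L k t ^ q := fun t =>
      Finset.sum_nonneg fun k _ => Real.rpow_nonneg (hL0 k t) q
    have hE0 : ∀ t, 0 ≤ E t := fun t => by
      have := hsum0 t
      simp only [hE]
      positivity
    have hsumc : Continuous fun t => ∑ k, L k t ^ q := continuous_finsetSum _ fun k _ => hcL k
    have hEc : Continuous E := by
      simp only [hE]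
      exact continuous_const.add (continuous_const.add (continuous_const.mul
        (continuous_const.add hsumc)))
    have hmem : ∀ t ∈ Icc (-ρ) ρ, pt (x, t) ∈ rect r := fun t ht =>
      pt_mem hx hxr (abs_le.2 ht) hρr
    have hint2 : ∫ t in (-(1 / 2) : ℝ)..(1 / 2), ∑ k, L k t ^ q ≤ Fintype.card κ * 72 := by
      rw [intervalIntegral.integral_finsetSum fun k _ => (hcL k).intervalIntegrable _ _]
      refine (Finset.sum_le_sum fun k _ => hint k).trans (le_of_eq ?_)
      rw [Finset.sum_const, Finset.card_univ, nsmul_eq_mul]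
    calc ∫ t in -ρ..ρ, UU 1 (G (pt (x, t))) ≤ ∫ t in -ρ..ρ, E t := by
          refine intervalIntegral.integral_mono_on hle ?_ (hEc.intervalIntegrable _ _) fun t ht => ?_
          · refine ContinuousOn.intervalIntegrable ?_
            rw [uIcc_of_le hle]
            exact (cont_UU one_pos hGd.continuousOn).comp
              ((continuous_pt.comp (by fun_prop)).continuousOn) (fun t ht => hmem t ht)
          · have hz := hin _ (hmem t ht)
            have hz1 := hre _ (hmem t ht)
            have h1 := hB' _ hz hz1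
            set Y := YY b (w + pt (x, t)) with hY
            have hY0 : 0 ≤ Y := YY_nonneg _ _
            have hYL : Y = ∑ k, L k t := rfl
            have h2 := UU_dom (y := (1 + Y) ^ (D + 1)) hBone hp0 hp1 (w := G (pt (x, t)))
              (by positivity) (by
                refine h1.trans (mul_le_mul_of_nonneg_left ?_ (by linarith))
                linarith)
            refine h2.trans ?_
            have h3 : ((1 + Y) ^ (D + 1)) ^ p = (1 + Y) ^ q := by
              rw [← Real.rpow_natCast, ← Real.rpow_mul (by positivity)]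
              congr 1
              rw [hp]
              field_simp
            have h4 : (1 + Y) ^ q ≤ 1 + ∑ k, L k t ^ q := by
              have h5 := Real.rpow_add_le_add_rpow (a := 1) (b := Y) zero_le_one hY0 hq0.le hq1
              rw [Real.one_rpow] at h5
              refine h5.trans (add_le_add le_rfl ?_)
              rw [hYL]
              exact rpow_sum_le hq0 hq1 Finset.univ _ fun k => hL0 k t
            rw [h3]
            simp only [hE]
            have h6 : 1 / p * (1 + Y) ^ q ≤ 1 / p * (1 + ∑ k, L k t ^ q) :=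
              mul_le_mul_of_nonneg_left h4 (by positivity)
            linarith
      _ ≤ ∫ t in (-(1 / 2) : ℝ)..(1 / 2), E t := by
          refine intervalIntegral.integral_mono_interval (by linarith) hle (by linarith)
            (Eventually.of_forall fun t => hE0 t) (hEc.intervalIntegrable _ _)
      _ = Real.log 2 + Real.log B + 1 / p + (1 / p) *
            (1 + ∫ t in (-(1 / 2) : ℝ)..(1 / 2), ∑ k, L k t ^ q) := by
          have i1 : IntervalIntegrable (fun t => (1 / p) * ∑ k, L k t ^ q) volume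
              (-(1 / 2)) (1 / 2) := (continuous_const.mul hsumc).intervalIntegrable _ _
          have i2 : IntervalIntegrable (fun _ : ℝ => Real.log 2 + Real.log B + 1 / p + 1 / p)
              volume (-(1 / 2)) (1 / 2) := continuous_const.intervalIntegrable _ _
          have e1 : ∀ t, E t = (Real.log 2 + Real.log B + 1 / p + 1 / p) +
              (1 / p) * ∑ k, L k t ^ q := by
            intro t
            simp only [hE]
            ring
          rw [intervalIntegral.integral_congr (fun t _ => e1 t),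
            intervalIntegral.integral_add i2 i1, intervalIntegral.integral_const_mul,
            intervalIntegral.integral_const]
          simp only [smul_eq_mul]
          ring
      _ ≤ C := by
          rw [hC]
          have : (1 / p) * (1 + ∫ t in (-(1 / 2) : ℝ)..(1 / 2), ∑ k, L k t ^ q) ≤
              (1 / p) * (1 + Fintype.card κ * 72) :=
            mul_le_mul_of_nonneg_left (by linarith) (by positivity)
          linarith
  have hlim' : ∀ t ∈ Z', Tendsto (fun x : ℝ => G (pt (x, t))) (𝓝[>] 0) (𝓝 0) := by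
    intro t ht
    refine (hlim (τ₁ + t) ht.1).congr fun x => ?_
    have e : (1 + ((τ₁ + t : ℝ) : ℂ) * I + x : ℂ) = w + pt (x, t) := by
      simp only [hw, pt]
      push_cast
      ring
    rw [e]
  have hzero := local_uniqueness hGd hρ0 hρr hbound inter_subset_right hZ'0 hlim'
  -- the identity theorem
  have hV : IsOpen (U ∩ {s : ℂ | 1 < s.re}) :=
    hU.inter (isOpen_lt continuous_const Complex.continuous_re)
  have hA : AnalyticOnNhd ℂ F (U ∩ {s : ℂ | 1 < s.re}) := hF.analyticOnNhd hV
  set z0 : ℂ := ((r / 2 : ℝ) : ℂ) with hz0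
  have hz0r : z0 ∈ rect r := by
    refine ⟨?_, ?_, ?_⟩
    · simp only [hz0, ofReal_re]; positivity
    · simp only [hz0, ofReal_re]; linarith
    · simp only [hz0, ofReal_im, abs_zero]; exact hr0
  have hev : F =ᶠ[𝓝 (w + z0)] 0 := by
    have h1 : ∀ᶠ s in 𝓝 (w + z0), s - w ∈ rect r := by
      have hc : Continuous fun s : ℂ => s - w := continuous_id.sub continuous_const
      refine hc.continuousAt.eventually (p := fun y => y ∈ rect r) ?_
      have e : w + z0 - w = z0 := by ring
      change ∀ᶠ y in 𝓝 (w + z0 - w), y ∈ rect r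
      rw [e]
      exact (isOpen_rect r).mem_nhds hz0r
    filter_upwards [h1] with s hs
    have := hzero _ hs
    simp only [hG, add_sub_cancel] at this
    exact this
  have hfin := hA.eqOn_zero_of_preconnected_of_eventuallyEq_zero hUc
    ⟨hcbU (hin _ hz0r), hre _ hz0r⟩ hev
  intro s hs hs1
  exact hfin ⟨hs, hs1⟩

end

/-- the growth of polynomials -/
lemma poly_bound {σ : Type} (P : MvPolynomial σ ℂ) : ∃ B : ℝ, ∃ D : ℕ, 0 ≤ B ∧
    ∀ (x : σ → ℂ) (R : ℝ), 1 ≤ R → (∀ i, ‖x i‖ ≤ R) → ‖MvPolynomial.aeval x P‖ ≤ B * R ^ D := by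
  induction P using MvPolynomial.induction_on with
  | C a =>
    refine ⟨‖a‖, 0, norm_nonneg _, fun x R hR hx => ?_⟩
    rw [MvPolynomial.aeval_C]
    simp
  | add p q hp hq =>
    obtain ⟨B1, D1, h1, h1'⟩ := hp
    obtain ⟨B2, D2, h2, h2'⟩ := hq
    refine ⟨B1 + B2, max D1 D2, by positivity, fun x R hR hx => ?_⟩
    rw [map_add, add_mul]
    refine (norm_add_le _ _).trans (add_le_add ?_ ?_)
    · exact (h1' x R hR hx).trans (mul_le_mul_of_nonneg_left
        (pow_le_pow_right₀ hR (le_max_left _ _)) h1)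
    · exact (h2' x R hR hx).trans (mul_le_mul_of_nonneg_left
        (pow_le_pow_right₀ hR (le_max_right _ _)) h2)
  | mul_X p i hp =>
    obtain ⟨B, D, h1, h1'⟩ := hp
    refine ⟨B, D + 1, h1, fun x R hR hx => ?_⟩
    rw [map_mul, MvPolynomial.aeval_X, norm_mul, pow_succ, ← mul_assoc]
    exact mul_le_mul (h1' x R hR hx) (hx i) (norm_nonneg _) (by positivity)

end Pool.Agent.Y770.NR
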