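import Pool.Agent.Y770.NR.Count
import Pool.Agent.Y770.NR.Uniq
import Pool.Agent.Y770.SC.Rep
import Pool.Agent.TH345.ET.W

/-!
# The L-functions of projective varieties as products `h · exp (FF b)`
-/

set_option autoImplicit false

namespace Pool.Agent.Y770.NR

open NumberField IsDedekindDomain Filter Topology Polynomial Pool.Agent.TH958.BV
open Pool.Agent.TH339.MP (PP FF bb norm_bb hasProd_L nm)
open Pool.Agent.TH345.ET (ep)
open Pool.Agent.Y770.SC (nb norm_nb nm_pos)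

section
variable {K : Type} [Field K] [NumberField K] {n : ℕ}

lemma good_norm {X : Set (MvPolynomial (Fin n) (𝓞 K))} {d i N : ℕ}
    {v : HeightOneSpectrum (𝓞 K)} {α : Fin N → ℂ} (h : IsFrobenius X d i v α) (j : Fin N) :
    ‖α j‖ = (nm v : ℝ) ^ ((i : ℝ) / 2) := norm_of_isFrobenius h j

/-- the factor of the bad primes -/
noncomputable def hbad (i : ℕ) (B : HeightOneSpectrum (𝓞 K) → ℂ[X])
    (E : Finset (HeightOneSpectrum (𝓞 K))) (s : ℂ) : ℂ :=
  ∏ v ∈ E, localFactor B v (s + i / 2)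

lemma edge_eq (i : ℕ) (s : ℂ) : edgePoint i 0 + (s - 1) = s + i / 2 := by
  unfold edgePoint
  push_cast
  ring

theorem hasProd_full {X : Set (MvPolynomial (Fin n) (𝓞 K))} {d i N : ℕ}
    {B : HeightOneSpectrum (𝓞 K) → ℂ[X]} {E : Finset (HeightOneSpectrum (𝓞 K))}
    (hE : ∀ v, v ∉ E → GoodV X d i N B v) :
    ∃ b : PP → ℂ, (∀ x, ‖b x‖ ≤ ((Module.finrank ℚ K : ℝ) * N) / (x.2 + 1 : ℕ)) ∧
      ∀ s : ℂ, 1 < s.re → HasProd (fun v => localFactor B v (s + i / 2))
        (hbad i B E s * Complex.exp (FF b s)) := by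
  classical
  set α : HeightOneSpectrum (𝓞 K) → Fin N → ℂ := fun v => if h : GoodV X d i N B v then h.choose
    else 0 with hα
  set S : Set (HeightOneSpectrum (𝓞 K)) := ↑E with hS
  have hgood : ∀ v, v ∉ S → IsFrobenius X d i v (α v) ∧
      ∀ z : ℂ, (B v).eval z = ∏ j, (1 - α v j * z) := by
    intro v hv
    have h := hE v (by simpa [hS] using hv)
    simp only [hα, dif_pos h]
    exact h.choose_spec
  have hn : ∀ v, v ∉ S → ∀ j, ‖α v j‖ = (nm v : ℝ) ^ ((i : ℝ) / 2) := fun v hv j =>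
    good_norm (hgood v hv).1 j
  refine ⟨bb (nb i S α), fun x => norm_bb (norm_nb hn) x, fun s hs => ?_⟩
  have h3 := hasProd_L (norm_nb hn) hs
  have h4 : HasProd (fun v => if v ∈ E then localFactor B v (s + i / 2) else 1) (hbad i B E s) := by
    have h5 := hasProd_prod_of_ne_finset_one (L := SummationFilter.unconditional _)
      (s := E) (f := fun v => if v ∈ E then localFactor B v (s + i / 2) else 1)
      (fun v hv => if_neg hv)
    have h6 : ∏ v ∈ E, (if v ∈ E then localFactor B v (s + i / 2) else 1) = hbad i B E s :=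
      Finset.prod_congr rfl fun v hv => if_pos hv
    rwa [h6] at h5
  have h5 := h4.mul h3
  suffices hfun : (fun v => (if v ∈ E then localFactor B v (s + i / 2) else 1) *
      ∏ j, (1 - nb i S α v j * ((nm v : ℕ) : ℂ) ^ (-s))⁻¹) =
      fun v => localFactor B v (s + i / 2) by
    rw [hfun] at h5
    exact h5
  funext v
  by_cases hv : v ∈ E
  · rw [if_pos hv]
    have h7 : ∏ j, (1 - nb i S α v j * ((nm v : ℕ) : ℂ) ^ (-s))⁻¹ = 1 := by
      refine Finset.prod_eq_one fun j _ => ?_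
      unfold nb
      rw [if_pos (by simpa [hS] using hv)]
      simp
    rw [h7, mul_one]
  · rw [if_neg hv, one_mul]
    have hv' : v ∉ S := by simpa [hS] using hv
    unfold localFactor
    rw [(hgood v hv').2, ← Finset.prod_inv_distrib]
    refine Finset.prod_congr rfl fun j _ => ?_
    unfold nb
    rw [if_neg hv']
    have hn0 : ((nm v : ℕ) : ℂ) ≠ 0 := by
      have := nm_pos v
      exact_mod_cast this.ne'
    have e1 : ((((nm v : ℝ) ^ ((i : ℝ) / 2) : ℝ)) : ℂ) = ((nm v : ℕ) : ℂ) ^ ((i : ℂ) / 2) := by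
      rw [Complex.ofReal_cpow (Nat.cast_nonneg _)]
      push_cast
      rfl
    have e2 : ((nm v : ℕ) : ℂ) ^ (-(s + i / 2)) =
        ((nm v : ℕ) : ℂ) ^ (-s) / ((nm v : ℕ) : ℂ) ^ ((i : ℂ) / 2) := by
      rw [neg_add, Complex.cpow_add _ _ hn0, Complex.cpow_neg _ ((i : ℂ) / 2), ← div_eq_mul_inv]
    have e3 : (Ideal.absNorm v.asIdeal : ℂ) = ((nm v : ℕ) : ℂ) := rfl
    rw [e1, e3, e2]
    congr 2
    ring

lemma factor_ne {X : Set (MvPolynomial (Fin n) (𝓞 K))} {d i N : ℕ}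
    {B : HeightOneSpectrum (𝓞 K) → ℂ[X]} (hB : IsEulerSystem X d i N B) {τ : ℝ} (hτ : τ ∉ TT)
    (v : HeightOneSpectrum (𝓞 K)) :
    (B v).eval ((nm v : ℂ) ^ (-(ep τ + i / 2))) ≠ 0 := by
  rw [TT, Set.mem_union, not_or, Set.mem_iUnion, Set.mem_iUnion, not_exists, not_exists] at hτ
  intro h
  refine hτ.2 ⟨nm v, i, ⟨B v, (hB.2 v).2⟩⟩ ⟨Pool.Agent.TH339.MP.two_le_nm v, (hB.2 v).1, ?_⟩
  have e : Pool.Agent.W350.Edge.sp i τ = ep τ + i / 2 := by
    unfold Pool.Agent.W350.Edge.sp ep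
    push_cast
    ring
  change (B v).eval ((nm v : ℂ) ^ (-Pool.Agent.W350.Edge.sp i τ)) = 0
  rw [e]
  exact h

lemma hbad_analytic {X : Set (MvPolynomial (Fin n) (𝓞 K))} {d i N : ℕ}
    {B : HeightOneSpectrum (𝓞 K) → ℂ[X]} (hB : IsEulerSystem X d i N B)
    (E : Finset (HeightOneSpectrum (𝓞 K))) {τ : ℝ} (hτ : τ ∉ TT) :
    AnalyticAt ℂ (hbad i B E) (ep τ) := by
  unfold hbad
  refine Finset.analyticAt_fun_prod _ fun v _ => ?_
  unfold localFactor
  refine AnalyticAt.fun_inv ?_ (factor_ne hB hτ v)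
  have hq0 : (nm v : ℂ) ≠ 0 := by
    have := nm_pos v
    exact_mod_cast this.ne'
  have h2 : Differentiable ℂ fun s : ℂ => (B v).eval ((nm v : ℂ) ^ (-(s + i / 2))) := by
    refine (B v).differentiable.comp ?_
    intro s
    exact (((differentiableAt_id.add_const _).neg).const_cpow (Or.inl hq0))
  exact h2.analyticAt _

/-- the denominator of the factor of the bad primes -/
noncomputable def gbad (i : ℕ) (B : HeightOneSpectrum (𝓞 K) → ℂ[X])
    (E : Finset (HeightOneSpectrum (𝓞 K))) (s : ℂ) : ℂ :=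
  ∏ v ∈ E, (B v).eval ((nm v : ℂ) ^ (-(s + i / 2)))

lemma hbad_eq (i : ℕ) (B : HeightOneSpectrum (𝓞 K) → ℂ[X])
    (E : Finset (HeightOneSpectrum (𝓞 K))) : hbad i B E = fun s => (gbad i B E s)⁻¹ := by
  funext s
  unfold hbad gbad localFactor
  rw [← Finset.prod_inv_distrib]
  rfl

lemma gbad_diff (i : ℕ) (B : HeightOneSpectrum (𝓞 K) → ℂ[X])
    (E : Finset (HeightOneSpectrum (𝓞 K))) : Differentiable ℂ (gbad i B E) := by
  unfold gbad
  refine Differentiable.fun_finsetProd fun v _ => ?_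
  have hq0 : (nm v : ℂ) ≠ 0 := by
    have := nm_pos v
    exact_mod_cast this.ne'
  refine (B v).differentiable.comp ?_
  intro s
  exact (((differentiableAt_id.add_const _).neg).const_cpow (Or.inl hq0))

theorem rep {f : ℂ → ℂ} (hf : f ∈ MotK K) : ∃ (b : PP → ℂ) (g : ℂ → ℂ) (M : ℝ),
    (∀ x, ‖b x‖ ≤ M / (x.2 + 1 : ℕ)) ∧
    (∀ s : ℂ, 1 < s.re → f (s - 1) = (g s)⁻¹ * Complex.exp (FF b s)) ∧
    Differentiable ℂ g ∧ (∀ τ, τ ∉ TT → g (ep τ) ≠ 0) ∧
    ∀ τ, τ ∉ TT → ∃ l : ℂ, l ≠ 0 ∧ ∀ C : ℝ,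
      Tendsto f (𝓝[{z : ℂ | 0 < z.re ∧ ‖z - τ * Complex.I‖ ≤ C * z.re}] (τ * Complex.I)) (𝓝 l) := by
  classical
  obtain ⟨n, X, d, i, N, B, hi, hB, rfl⟩ := hf
  have hbad' : {v | ¬ GoodV X d i N B v}.Finite := hB.1
  have hE : ∀ v, v ∉ hbad'.toFinset → GoodV X d i N B v := by
    intro v hv
    by_contra h
    exact hv (by simpa using h)
  obtain ⟨b, hb, hprod⟩ := hasProd_full hE
  refine ⟨b, gbad i B hbad'.toFinset, (Module.finrank ℚ K : ℝ) * N, hb, fun s hs => ?_,
    gbad_diff _ _ _, fun τ hτ => Finset.prod_ne_zero_iff.2 fun v _ => factor_ne hB hτ v,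
    fun τ hτ => ?_⟩
  · have h1 := (hprod s hs).tprod_eq
    have h2 : edgePoint i 0 + (s - 1) = s + i / 2 := edge_eq i s
    simp only
    rw [h2]
    rw [hbad_eq] at h1
    exact h1
  · obtain ⟨l, hl, -, h⟩ := universal X d i N hi B hB τ hτ
    refine ⟨l, hl, fun C => (h C).comp ?_⟩
    rw [tendsto_nhdsWithin_iff]
    have e : ∀ z : ℂ, edgePoint i 0 + z - edgePoint i τ = z - τ * Complex.I := by
      intro z
      unfold edgePoint
      push_cast
      ring
    constructor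
    · have h1 : Tendsto (fun z : ℂ => edgePoint i 0 + z) (𝓝 (τ * Complex.I))
          (𝓝 (edgePoint i 0 + τ * Complex.I)) := (continuous_const.add continuous_id).tendsto _
      have h2 : edgePoint i 0 + τ * Complex.I = edgePoint i τ := by
        unfold edgePoint
        push_cast
        ring
      rw [h2] at h1
      exact h1.mono_left nhdsWithin_le_nhds
    · filter_upwards [self_mem_nhdsWithin] with z hz
      have hre : (edgePoint i 0 + z).re = (i : ℝ) / 2 + 1 + z.re := by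
        unfold edgePoint
        simp
      refine ⟨?_, ?_⟩
      · rw [hre]
        linarith [hz.1]
      · rw [hre, e]
        have := hz.2
        linarith

end

end Pool.Agent.Y770.NR
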